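import Mathlib
import Pool.Agent.Helper885.ExactTree.Classes

set_option autoImplicit false

namespace Pool.Agent.Results.MP_4b5926_gt.Assembly

open Pool.Agent.Helper885.ExRef

/-- Property (D) implies span zero, even semispan zero, for every tree-like continuum that embeds in
an inverse limit of trees with simplicial bonding maps, or has exact tree refinements, or can be cut
into arbitrarily small pieces at small necks. -/
theorem result :
    ∀ (X : Type) [MetricSpace X] [CompactSpace X] [ConnectedSpace X],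
      (∀ ε : ℝ, 0 < ε → ∃ n : ℕ, ∃ U : Fin n → Set X,
        (∀ i, IsOpen (U i)) ∧ (∀ i, (U i).Nonempty) ∧
        (∀ i, Metric.diam (U i) < ε) ∧ (⋃ i, U i) = Set.univ ∧
        (∀ i j k, i ≠ j → j ≠ k → i ≠ k → U i ∩ U j ∩ U k = ∅) ∧
        (SimpleGraph.fromRel (fun i j : Fin n => (U i ∩ U j).Nonempty)).IsTree) →
      (SimplicialTreeLimit X ∨ ExactTreeRefinable X ∨ SmallNecks X) →
      (∀ A B : X, ∀ K : Set (X × X), IsCompact K → IsConnected K →
        (A, B) ∈ K → (B, A) ∈ K → ∃ x : X, (x, x) ∈ K) →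
      ∀ Z : Set (X × X), IsCompact Z → IsConnected Z →
        Prod.snd '' Z ⊆ Prod.fst '' Z → ∃ x : X, (x, x) ∈ Z := by
  intro X _ _ _ htree hX hD Z hZc hZ hpr
  refine classes_span ?_ hX hD Z hZc hZ hpr
  intro ε hε
  obtain ⟨n, U, h1, h2, h3, h4, _, h6⟩ := htree ε hε
  refine ⟨n, U, h1, h2, ?_, h4, h6.isAcyclic⟩
  intro i x hx y hy
  exact (Metric.dist_le_diam_of_mem
    ((isCompact_univ (X := X)).isBounded.subset (Set.subset_univ _)) hx hy).trans_lt (h3 i)

end Pool.Agent.Results.MP_4b5926_gt.Assembly
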