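import Mathlib
import Pool.Agent.Helper885.ExactTree.Core

set_option autoImplicit false

namespace Pool.Agent.Results.MP_4b5926_gt.ExactRefinements

open Pool.Agent.Helper885.ExRef

/-- Property (D) implies span zero, even semispan zero, for every compact metric space with exact
tree refinements. -/
theorem result :
    ∀ (X : Type) [MetricSpace X] [CompactSpace X], ExactTreeRefinable X →
      (∀ (A B : X) (K : Set (X × X)), IsCompact K → IsConnected K →
        (A, B) ∈ K → (B, A) ∈ K → ∃ x : X, (x, x) ∈ K) →
      ∀ Z : Set (X × X), IsCompact Z → IsConnected Z →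
        Prod.snd '' Z ⊆ Prod.fst '' Z → ∃ x : X, (x, x) ∈ Z := by
  intro X _ _ hX hD Z hZc hZ hpr
  exact refinable_span hX hD Z hZc hZ hpr

end Pool.Agent.Results.MP_4b5926_gt.ExactRefinements
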