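import Mathlib
import Pool.Agent.Helper885.ExactTree.Core

set_option autoImplicit false

namespace Pool.Agent.Results.MP_4b5926_gt.SimplicialLimits

open Pool.Agent.Helper885.ExRef

/-- Property (D) implies span zero, even semispan zero, for every compact metric space that embeds
in the inverse limit of a sequence of finite trees with simplicial bonding maps. -/
theorem result :
    ∀ (X : Type) [MetricSpace X] [CompactSpace X]
      (V : ℕ → Type) [∀ n, Fintype (V n)] (G : ∀ n, SimpleGraph (V n))
      (F : ∀ n, V (n + 1) → V n) (p : ∀ n, X → V n → ℝ),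
      (∀ n, (G n).IsTree) →
      (∀ n u v, (G (n + 1)).Adj u v → F n u = F n v ∨ (G n).Adj (F n u) (F n v)) →
      (∀ n, Continuous (p n)) →
      (∀ n x, p n x ∈ geo (G n)) →
      (∀ n x, push (F n) (p (n + 1) x) = p n x) →
      (∀ x y, (∀ n, p n x = p n y) → x = y) →
      (∀ (A B : X) (K : Set (X × X)), IsCompact K → IsConnected K →
        (A, B) ∈ K → (B, A) ∈ K → ∃ x : X, (x, x) ∈ K) →
      ∀ Z : Set (X × X), IsCompact Z → IsConnected Z →
        Prod.snd '' Z ⊆ Prod.fst '' Z → ∃ x : X, (x, x) ∈ Z := by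
  intro X _ _ V _ G F p hG hF hp hgeo hpush hsep hD Z hZc hZ hpr
  exact refinable_span (limit_refinable V G F p (fun n => (hG n).isAcyclic) hF hp hgeo hpush hsep)
    hD Z hZc hZ hpr

end Pool.Agent.Results.MP_4b5926_gt.SimplicialLimits
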